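import Mathlib

set_option autoImplicit false
open Filter Topology

namespace Pool.Agent.H.MP_f23f32_an

lemma wlim {H : Type} [NormedAddCommGroup H] [InnerProductSpace ℂ H] [CompleteSpace H]
    (p : Ultrafilter ℤ) (T : ℤ → H →L[ℂ] H) (C : ℝ) (hC : 0 ≤ C) (hT : ∀ n, ‖T n‖ ≤ C) :
    ∃ L : H →L[ℂ] H, ‖L‖ ≤ C ∧
      ∀ ξ η, Tendsto (fun n => inner ℂ ξ (T n η)) p (𝓝 (inner ℂ ξ (L η))) := by
  have hb : ∀ ξ η n, ‖inner ℂ (T n η) ξ‖ ≤ C * ‖η‖ * ‖ξ‖ := fun ξ η n =>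
    (norm_inner_le_norm _ _).trans (mul_le_mul_of_nonneg_right ((T n).le_of_opNorm_le (hT n) η)
      (norm_nonneg _))
  have h : ∀ η ξ, ∃ c : ℂ, ‖c‖ ≤ C * ‖η‖ * ‖ξ‖ ∧
      Tendsto (fun n => inner ℂ (T n η) ξ) p (𝓝 c) := fun η ξ => by
    obtain ⟨c, h1, h2⟩ := (isCompact_closedBall (0 : ℂ) (C * ‖η‖ * ‖ξ‖)).ultrafilter_le_nhds
      (p.map fun n => inner ℂ (T n η) ξ)
      (le_principal_iff.2 (mem_map.2 (Eventually.of_forall fun n => by simpa using hb ξ η n)))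
    exact ⟨c, by simpa using h1, h2⟩
  choose c c1 c2 using h
  let B : H →ₗ⋆[ℂ] H →ₗ[ℂ] ℂ := LinearMap.mk₂'ₛₗ _ _ c
    (fun a b ξ => tendsto_nhds_unique (c2 _ _) (by simpa [inner_add_left] using (c2 a ξ).add (c2 b ξ)))
    (fun s a ξ => tendsto_nhds_unique (c2 _ _) (by
      simp only [map_smul, inner_smul_left, smul_eq_mul]; exact (c2 a ξ).const_mul _))
    (fun a ξ η => tendsto_nhds_unique (c2 _ _) (by simpa [inner_add_right] using (c2 a ξ).add (c2 a η)))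
    (fun s a ξ => tendsto_nhds_unique (c2 _ _) (by simpa [inner_smul_right] using (c2 a ξ).const_mul _))
  let L := InnerProductSpace.continuousLinearMapOfBilin (B.mkContinuous₂ C c1)
  have hL : ∀ η ξ, inner ℂ (L η) ξ = c η ξ := fun η ξ =>
    InnerProductSpace.continuousLinearMapOfBilin_apply _ _ _
  refine ⟨L, L.opNorm_le_bound hC fun η => ?_, fun ξ η => ?_⟩
  · have := c1 η (L η)
    rw [← hL, inner_self_eq_norm_sq_to_K, norm_pow, RCLike.norm_ofReal, abs_norm, sq] at this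
    rcases (norm_nonneg (L η)).eq_or_lt with h | h
    · rw [← h]; positivity
    · exact le_of_mul_le_mul_right this h
  · have := (Complex.continuous_conj.tendsto _).comp (c2 η ξ)
    rw [← hL] at this
    simpa [Function.comp_def] using this

lemma exists_p : ∃ p : Ultrafilter ℤ, (∀ᶠ n : ℤ in p, n ≠ 0) ∧ (∀ k : ℕ, ∀ᶠ n in p, (2 : ℤ) ^ k ∣ n) ∧
    ∀ P : ℤ → Prop, (∀ᶠ n in p, P n) → ∀ᶠ m in p, ∀ᶠ n in p, P (m + n) := by
  obtain ⟨p, h1, h2⟩ := Hindman.exists_idempotent_ultrafilter_le_FS (Stream'.const (1 : ℤ))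
  have h3 : ∀ P : ℤ → Prop, (∀ᶠ n in p, P n) → ∀ᶠ m in p, ∀ᶠ n in p, P (m + n) := fun P h =>
    (Ultrafilter.eventually_add p p P).1 (h1.symm ▸ h)
  have pos : ∀ (a : Stream' ℤ) (m : ℤ), m ∈ Hindman.FS a → (∀ i, 0 < a.get i) → 0 < m := by
    intro a m hm
    induction hm with
    | head' a => exact fun h => h 0
    | tail' a m _ ih => exact fun h => ih fun i => h (i + 1)
    | cons' a m _ ih => exact fun h => add_pos (h 0) (ih fun i => h (i + 1))
  refine ⟨p, h2.mono fun n hn => (pos _ n hn fun _ => one_pos).ne', fun k => ?_, h3⟩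
  obtain ⟨r, hr⟩ := (p.map (Int.cast : ℤ → ZMod (2 ^ k))).eq_pure_of_finite
  have h4 : ∀ᶠ n in p, ((n : ℤ) : ZMod (2 ^ k)) = r := by
    have : {r} ∈ p.map (Int.cast : ℤ → ZMod (2 ^ k)) := by rw [hr]; simp
    exact this
  obtain ⟨m, a1, a2⟩ := (h4.and (h3 _ h4)).exists
  obtain ⟨n, a3, a4⟩ := (h4.and a2).exists
  rw [Int.cast_add, a1, a3, add_eq_left] at a4
  refine h4.mono fun n hn => ?_
  exact_mod_cast (ZMod.intCast_zmod_eq_zero_iff_dvd n (2 ^ k)).1 (hn.trans a4)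

noncomputable def v (n : ℤ) : ℕ := sInf {a | ¬ (2 : ℤ) ^ (a + 1) ∣ n}

lemma v_spec {n : ℤ} (h : n ≠ 0) : ¬ (2 : ℤ) ^ (v n + 1) ∣ n :=
  Nat.sInf_mem (s := {a | ¬ (2 : ℤ) ^ (a + 1) ∣ n}) ⟨n.natAbs, fun h1 => by
    have h2 := Int.natAbs_le_of_dvd_ne_zero h1 h
    rw [Int.natAbs_pow] at h2
    have : n.natAbs + 1 < 2 ^ (n.natAbs + 1) := Nat.lt_two_pow_self
    change 2 ^ (n.natAbs + 1) ≤ _ at h2
    omega⟩

lemma v_add {j m : ℤ} (h : j ≠ 0) (hm : (2 : ℤ) ^ (v j + 1) ∣ m) : j + m ≠ 0 ∧ v (j + m) = v j := by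
  have h1 : ¬ (2 : ℤ) ^ (v j + 1) ∣ j + m := fun h1 => v_spec h ((dvd_add_left hm).1 h1)
  have h2 : j + m ≠ 0 := fun h2 => h1 (h2 ▸ dvd_zero _)
  refine ⟨h2, le_antisymm (Nat.sInf_le h1) (le_of_not_gt fun h3 => v_spec h2 (dvd_add ?_ ?_))⟩
  · exact not_not.1 (Nat.notMem_of_lt_sInf h3)
  · exact (pow_dvd_pow _ (by omega)).trans hm

noncomputable def σ (n : ℤ) : ℤ := if n = 0 then 0 else n + 2 ^ (v n + 1)

lemma σ_ne {n : ℤ} (h : n ≠ 0) : σ n ≠ 0 := by rw [σ, if_neg h]; exact (v_add h dvd_rfl).1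

lemma σ_inj : Function.Injective σ := by
  intro a b h
  by_cases ha : a = 0 <;> by_cases hb : b = 0
  · rw [ha, hb]
  · exact absurd (by rw [← h, ha, σ, if_pos rfl]) (σ_ne hb)
  · exact absurd (by rw [h, hb, σ, if_pos rfl]) (σ_ne ha)
  · rw [σ, σ, if_neg ha, if_neg hb] at h
    have : v a = v b := by rw [← (v_add ha dvd_rfl).2, h, (v_add hb dvd_rfl).2]
    rw [this] at h
    exact add_right_cancel h

noncomputable abbrev H := lp (fun _ : ℤ => ℂ) 2

noncomputable def e (i : ℤ) : H := lp.single 2 i 1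

lemma inner_e (i : ℤ) (f : H) : inner ℂ (e i) f = f i := by simp [e, lp.inner_single_left]

lemma inner_ee (i j : ℤ) : inner ℂ (e i) (e j) = if i = j then (1 : ℂ) else 0 := by
  rw [inner_e, e, lp.single_apply, Pi.single_apply]

lemma eq_zero {f : H} (h : ∀ i, inner ℂ (e i) f = 0) : f = 0 :=
  lp.ext (funext fun i => (inner_e i f).symm.trans (h i))

lemma orth : Orthonormal ℂ e := orthonormal_iff_ite.2 inner_ee

noncomputable def W (τ : ℤ → ℤ) (h : Function.Injective τ) : H →ₗᵢ[ℂ] H :=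
  (orth.comp τ h).orthogonalFamily.linearIsometry

lemma W_single (τ : ℤ → ℤ) (h : Function.Injective τ) (i : ℤ) (c : ℂ) :
    W τ h (lp.single 2 i c) = c • e (τ i) :=
  (orth.comp τ h).orthogonalFamily.linearIsometry_apply_single (i := i) c

lemma W_e (τ : ℤ → ℤ) (h : Function.Injective τ) (i : ℤ) : W τ h (e i) = e (τ i) :=
  (W_single τ h i 1).trans (one_smul _ _)

noncomputable def u (n : ℤ) : H →L[ℂ] H := (W (· + n) (add_left_injective n)).toContinuousLinearMap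

lemma u_e (n i : ℤ) : u n (e i) = e (i + n) := W_e _ (add_left_injective n) i

lemma u_inner (n : ℤ) (ξ η : H) : inner ℂ (u n ξ) (u n η) = inner ℂ ξ η :=
  (W _ (add_left_injective n)).inner_map_map ξ η

lemma ext_e {S T : H →L[ℂ] H} (h : ∀ i, S (e i) = T (e i)) : S = T :=
  lp.ext_continuousLinearMap (by simp) fun i => ContinuousLinearMap.ext_ring (h i)

lemma u_mul (m n : ℤ) : u m * u n = u (n + m) := ext_e fun i => by
  simp [u_e, add_assoc]

lemma u_zero : u 0 = 1 := ext_e fun i => by simp [u_e]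

lemma u_star (n : ℤ) : star (u n) = u (-n) := by
  refine ((ContinuousLinearMap.eq_adjoint_iff _ _).2 fun ξ η => ?_).symm
  rw [← u_inner n, ← ContinuousLinearMap.mul_apply, u_mul, neg_add_cancel, u_zero]
  rfl

noncomputable def vn (s : Set (H →L[ℂ] H)) : VonNeumannAlgebra H where
  toStarSubalgebra := StarSubalgebra.centralizer ℂ s
  centralizer_centralizer' := Set.centralizer_centralizer_centralizer _

lemma mem_vn {s : Set (H →L[ℂ] H)} {z : H →L[ℂ] H} :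
    z ∈ vn s ↔ ∀ g ∈ s, g * z = z * g ∧ star g * z = z * star g :=
  StarSubalgebra.mem_centralizer_iff ℂ

theorem core {H : Type} [NormedAddCommGroup H] [InnerProductSpace ℂ H] [CompleteSpace H]
    (u : ℤ → H →L[ℂ] H) (e : ℤ → H) (w : H →L[ℂ] H) (hu : ∀ n, ‖u n‖ ≤ 1)
    (u_mul : ∀ m n, u m * u n = u (n + m)) (u_inner : ∀ n ξ η, inner ℂ (u n ξ) (u n η) = inner ℂ ξ η)
    (u_e : ∀ n i, u n (e i) = e (i + n)) (W_e : ∀ i, w (e i) = e (σ i))
    (inner_ee : ∀ i j, inner ℂ (e i) (e j) = if i = j then (1 : ℂ) else 0) (ne : ∀ i, ‖e i‖ = 1)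
    (eq_zero : ∀ {f : H}, (∀ i, inner ℂ (e i) f = 0) → f = 0) :
    ∃ ψ : (H →L[ℂ] H) →ₗ[ℂ] (H →L[ℂ] H), (∀ x, ‖ψ x‖ ≤ ‖x‖) ∧ (∀ x, ψ (ψ x) = ψ x) ∧
    (∀ a, (∀ n, u n * a = a * u n) → (∀ n, u n * star a = star a * u n) →
      ∀ x, a * ψ x = ψ (a * x) ∧ ψ x * a = ψ (x * a)) ∧
    ∃ x, ∀ y, (1 / 2 : ℂ) • (ψ x * star (ψ x) * ψ 1 + ψ 1 * star (ψ x) * ψ x) ≠ ψ y := by
  obtain ⟨p, p1, p2, p3⟩ := exists_p
  have h : ∀ x : H →L[ℂ] H, ∃ L : H →L[ℂ] H, ‖L‖ ≤ ‖x‖ ∧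
      ∀ ξ η, Tendsto (fun n => inner ℂ (u n ξ) (x (u n η))) p (𝓝 (inner ℂ ξ (L η))) := fun x => by
    obtain ⟨L, h1, h2⟩ := wlim p (fun n => star (u n) * x * u n) ‖x‖ (norm_nonneg _) fun n => by
      refine (norm_mul_le _ _).trans ((mul_le_of_le_one_right (norm_nonneg _) (hu n)).trans ?_)
      refine (norm_mul_le _ _).trans (mul_le_of_le_one_left (norm_nonneg _) ?_)
      rw [norm_star]; exact hu n
    refine ⟨L, h1, fun ξ η => (h2 ξ η).congr fun n => ?_⟩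
    exact ContinuousLinearMap.adjoint_inner_right (u n) ξ (x (u n η))
  choose F f1 f2 using h
  have uq : ∀ x L : H →L[ℂ] H, (∀ ξ η, Tendsto (fun n => inner ℂ (u n ξ) (x (u n η))) p
      (𝓝 (inner ℂ ξ (L η)))) → F x = L := fun x L h =>
    ContinuousLinearMap.ext fun η => ext_inner_left ℂ fun ξ => tendsto_nhds_unique (f2 x ξ η) (h ξ η)
  have idem : ∀ x, F (F x) = F x := fun x => uq _ _ fun ξ η => by
    refine (closed_nhds_basis _).tendsto_right_iff.2 fun V hV => ?_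
    filter_upwards [p3 _ (f2 x ξ η hV.1)] with m hm
    refine hV.2.mem_of_tendsto (f2 x (u m ξ) (u m η)) (hm.mono fun n hn => ?_)
    rwa [← u_mul] at hn
  have one : F 1 = 1 := uq _ _ fun ξ η => by simp [u_inner]
  refine ⟨⟨⟨F, fun x y => uq _ _ fun ξ η => ?_⟩, fun c x => uq _ _ fun ξ η => ?_⟩, f1, idem,
    fun a ha ha' x => ⟨(uq _ _ fun ξ η => ?_).symm, (uq _ _ fun ξ η => ?_).symm⟩,
    w, fun y hy => ?_⟩
  · simpa [inner_add_right] using (f2 x ξ η).add (f2 y ξ η)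
  · simpa [inner_smul_right] using (f2 x ξ η).const_mul c
  · have := f2 x (star a ξ) η
    rw [ContinuousLinearMap.star_eq_adjoint, ContinuousLinearMap.adjoint_inner_left] at this
    refine this.congr fun n => ?_
    rw [← ContinuousLinearMap.star_eq_adjoint, ← ContinuousLinearMap.mul_apply,
      ha']
    exact ContinuousLinearMap.adjoint_inner_left a (x (u n η)) (u n ξ)
  · refine (f2 x ξ (a η)).congr fun n => ?_
    rw [← ContinuousLinearMap.mul_apply (u n), ha]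
    rfl
  obtain ⟨X, hX⟩ : ∃ X, X = F w := ⟨_, rfl⟩
  change (1 / 2 : ℂ) • (F _ * star (F _) * F 1 + F 1 * star (F _) * F _) = F y at hy
  rw [one, mul_one, one_mul, ← hX] at hy
  have ent : ∀ i j (c : ℂ), (∀ᶠ n in p, (if i + n = σ (j + n) then 1 else 0) = c) →
      inner ℂ (e i) (X (e j)) = c := fun i j c h =>
    tendsto_nhds_unique (hX ▸ f2 _ (e i) (e j)) (tendsto_const_nhds.congr' (h.mono fun n hn => by
      simp only [u_e, W_e, inner_ee, hn]))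
  have e0 : ∀ i, inner ℂ (e i) (X (e 0)) = 0 := fun i => ent i 0 0 (by
    filter_upwards [p1, p2 i.natAbs] with n h1 h2
    rw [if_neg]
    rw [zero_add, σ, if_neg h1, add_comm, add_right_inj]
    intro h3
    have h4 : i.natAbs ≤ v n := le_of_not_gt fun h => v_spec h1 ((pow_dvd_pow _ h).trans h2)
    have h5 : v n + 1 < 2 ^ (v n + 1) := Nat.lt_two_pow_self
    have h6 : i.natAbs = 2 ^ (v n + 1) := by rw [h3, Int.natAbs_pow]; rfl
    omega)
  have e1 : ∀ i j, j ≠ 0 → inner ℂ (e i) (X (e j)) = if i = σ j then 1 else 0 := fun i j hj =>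
    ent i j _ (by
      filter_upwards [p2 (v j + 1)] with n h1
      rw [σ, σ, if_neg hj, if_neg (v_add hj h1).1, (v_add hj h1).2, add_right_comm]
      simp)
  have q : ∀ ξ : H, (inner ℂ ξ (F y ξ)).re = (‖star X ξ‖ ^ 2 + ‖X ξ‖ ^ 2) / 2 := fun ξ => by
    have a1 : inner ℂ ξ (X (star X ξ)) = inner ℂ (star X ξ) (star X ξ) :=
      (ContinuousLinearMap.adjoint_inner_left _ _ _).symm
    have a2 : inner ℂ ξ (star X (X ξ)) = inner ℂ (X ξ) (X ξ) :=
      ContinuousLinearMap.adjoint_inner_right _ _ _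
    rw [← hy]
    change (inner ℂ ξ ((1 / 2 : ℂ) • (X (star X ξ) + star X (X ξ)))).re = _
    rw [inner_smul_right, inner_add_right, a1, a2, inner_self_eq_norm_sq_to_K,
      inner_self_eq_norm_sq_to_K]
    simp [← Complex.ofReal_pow]
    ring
  have z1 : X (e 0) = 0 := eq_zero e0
  have z2 : star X (e 0) = 0 := eq_zero fun j => by
    rw [ContinuousLinearMap.star_eq_adjoint, ContinuousLinearMap.adjoint_inner_right,
      inner_eq_zero_symm]
    by_cases hj : j = 0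
    · rw [hj, e0]
    · rw [e1 0 j hj, if_neg (σ_ne hj).symm]
  have t := (Complex.continuous_re.tendsto _).comp (f2 (F y) (e 0) (e 0))
  rw [idem, q, z1, z2] at t
  have := ge_of_tendsto t (b := 1 / 2) (p1.mono fun n hn => by
    have a1 := norm_inner_le_norm (𝕜 := ℂ) (e (σ n)) (X (e n))
    rw [e1 _ n hn, if_pos rfl, norm_one, ne, one_mul] at a1
    simp only [Function.comp, u_e, zero_add, q]
    nlinarith [sq_nonneg ‖star X (e n)‖])
  norm_num at this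

theorem main : ∃ ψ : (H →L[ℂ] H) →ₗ[ℂ] (H →L[ℂ] H), (∀ x, ‖ψ x‖ ≤ ‖x‖) ∧ (∀ x, ψ (ψ x) = ψ x) ∧
    (∀ a, (∀ n, u n * a = a * u n) → (∀ n, u n * star a = star a * u n) →
      ∀ x, a * ψ x = ψ (a * x) ∧ ψ x * a = ψ (x * a)) ∧
    ∃ x, ∀ y, (1 / 2 : ℂ) • (ψ x * star (ψ x) * ψ 1 + ψ 1 * star (ψ x) * ψ x) ≠ ψ y :=
  core u e (W σ σ_inj).toContinuousLinearMap
    (fun _ => LinearIsometry.norm_toContinuousLinearMap_le _) u_mul u_inner u_e (W_e σ σ_inj)
    inner_ee orth.1 eq_zero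

end Pool.Agent.H.MP_f23f32_an
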